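import Pool.Agent.Y661.HE.All
import Pool.Agent.Y661.HE.Expn
import Pool.Agent.Y86.HE.RAT
import Pool.Agent.Y661.HE.AS8
import Pool.Agent.Y529.HE.PLY
import Pool.Agent.Y872.HE.COE

/-!
# The band edge of the Bernoulli Anderson model in high dimension

For the operator `-(discrete Laplacian) + ω` on `ℓ²(ℤ^d)`, `ω` fair `±1`, the bottom of the spectrum
is `-1` for every `d`, but the states only begin at an effective edge `E(d)` with a complete
asymptotic expansion `-1/(2d) - 1/(4d²) + ...` in powers of `1/d` with rational coefficients: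
boxes have their ground state energy within `exp(-d^β)` of `E(d)`, states near the edge are spread
out, and there is no absolutely continuous spectrum outside `[E(d) - r, 4 d - E(d) + r]`,
`r = exp(-d^β)`, up to a set of energies of measure `exp(-exp(d^β))`, for every `β < 1/2`.
-/

set_option autoImplicit false

open MeasureTheory Filter

namespace Pool.Agent.Results.MP_d0f69c_mp.HighDimensionEdge

open Pool.Agent.Results.MP_d0f69c_mp.HighDimension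
open Pool.Agent.Y661.HE Pool.Agent.Y661.HE.ResB

/-- There are rational numbers `a 0 = 0`, `a 1 = -1/2`, `a 2 = -1/4`, `a 3`, ... such that for every
`0 < β < 1/2` there are numbers `E d` with `E d = ∑_{j ≤ m} a j / d ^ j + O(1 / d ^ (m + 1))` for all
`m` and, for all large `d`:

* outside an event of probability `exp(-exp(d^β))` the lowest eigenvalue of every box of radius
  `exp(2 d^β) ≤ R ≤ exp(exp(d^β))` is within `exp(-d^β)` of `E d`, and every eigenfunction on the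
  whole lattice with energy at most `E d + q` or at least `4 d - E d - q`, `exp(-d^β) ≤ q ≤ 1`,
  satisfies `|u x|² ≤ (60 q d log(2/q))^(d/2) ‖u‖²` for all `|x| ≤ exp(exp(d^β)) / 2`;
* there is a deterministic set `S` of energies which covers
  `(-1, E d - exp(-d^β)) ∪ (4 d - E d + exp(-d^β), 4 d + 1)` up to Lebesgue measure
  `exp(-exp(d^β))` such that almost surely there is no absolutely continuous spectrum in `S`. -/
theorem result : ∃ a : ℕ → ℚ, a 0 = 0 ∧ a 1 = -1 / 2 ∧ a 2 = -1 / 4 ∧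
    ∀ β : ℝ, 0 < β → β < 1 / 2 → ∃ E : ℕ → ℝ,
    (∀ m : ℕ, ∃ (C : ℝ) (d₀ : ℕ), ∀ d : ℕ, d₀ ≤ d →
      |E d - ∑ j ∈ Finset.range (m + 1), (a j : ℝ) * ((d : ℝ) ^ j)⁻¹| ≤ C * ((d : ℝ) ^ (m + 1))⁻¹) ∧
    ∃ d₀ : ℕ, ∀ d : ℕ, d₀ ≤ d →
      (coin d).real {ω | ¬ (
        (∀ R : ℕ, Real.exp (2 * (d : ℝ) ^ β) ≤ R → (R : ℝ) ≤ Real.exp (Real.exp ((d : ℝ) ^ β)) →
          |ground ω R - E d| ≤ Real.exp (-(d : ℝ) ^ β)) ∧
        ∀ q : ℝ, Real.exp (-(d : ℝ) ^ β) ≤ q → q ≤ 1 → ∀ (E' : ℝ) (u : (Fin d → ℤ) → ℂ),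
          (E' ≤ E d + q ∨ 4 * d - E d - q ≤ E') → (Summable fun x => ‖u x‖ ^ 2) →
          (∀ x, act ω u x = (E' : ℂ) * u x) → ∀ x : Fin d → ℤ,
          ‖x‖ ≤ Real.exp (Real.exp ((d : ℝ) ^ β)) / 2 →
          ‖u x‖ ^ 2 ≤ (60 * q * d * Real.log (2 / q)) ^ ((d : ℝ) / 2) * ∑' y, ‖u y‖ ^ 2)} ≤
        Real.exp (-Real.exp ((d : ℝ) ^ β)) ∧
      ∃ S : Set ℝ, MeasurableSet S ∧
        volume ((Set.Ioo (-1) (E d - Real.exp (-(d : ℝ) ^ β)) ∪
          Set.Ioo (4 * d - E d + Real.exp (-(d : ℝ) ^ β)) (4 * d + 1)) \ S) ≤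
          ENNReal.ofReal (Real.exp (-Real.exp ((d : ℝ) ^ β))) ∧
        ∀ᵐ ω ∂(coin d), ∀ H : Op (L2 d), IsAnderson ω H →
          ∀ (ψ : L2 d) (μ : Measure ℝ), IsSpectralMeasure H ψ μ → (μ.restrict S) ⟂ₘ volume := by
  obtain ⟨a, h0, h1, h2, ha⟩ := Expn.main BND.res All.prb Pool.Agent.Y155.HE.FRM.low
    Pool.Agent.Y155.HE.FRM.upp All.ex Pool.Agent.Y407.HE.AS1.main Pool.Agent.Y858.HE.AS5.as5
    Pool.Agent.Y858.HE.AS5.as6 Pool.Agent.Y858.HE.AS5.as7 AS8.main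
    (Pool.Agent.Y86.HE.RAT.main Pool.Agent.Y529.HE.PLY.main BND.bnd Pool.Agent.Y758.HE.MEA.main)
    Pool.Agent.Y872.HE.COE.main
  refine ⟨a, h0, h1, h2, fun β hβ hβ2 => ⟨FinB2.Eb β, ha β hβ hβ2, ?_⟩⟩
  exact ResB.main BND.res All.prb Pool.Agent.Y665.HE.LOC.loc Pool.Agent.Y155.HE.FRM.low
    Pool.Agent.Y155.HE.FRM.upp Pool.Agent.Y290.HE.DEC.main All.ex Pool.Agent.Y407.HE.AS1.main
    Pool.Agent.Y496.HE.AS2.main Pool.Agent.Y274.HE.AS3.main Pool.Agent.Y858.HE.AS5.as5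
    Pool.Agent.Y858.HE.AS5.as6 Pool.Agent.Y858.HE.AS5.as7 All.wlk Pool.Agent.Y529.HE.EIG.main
    Pool.Agent.Y220.HE.PAR.main β hβ hβ2

end Pool.Agent.Results.MP_d0f69c_mp.HighDimensionEdge
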