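import Pool.Agent.Y662.ERG.Dos

/-!
# Absolutely continuous states of the Anderson model: observables tend to microcanonical averages

`Δ_ω = -Δ + ω` on `ℤ^d`, `ω_j` iid with any law of bounded support which is not a point mass, for
instance `P(ω_j = ±1) = 1/2`. For every bounded self-adjoint local observable `A_ω` which is
covariant under translations there is a deterministic bounded Borel function `f` such that the time
averages of `e^{isΔ_ω} A_ω e^{-isΔ_ω}` in states of the absolutely continuous subspace of `Δ_ω` (if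
there are any) converge to `f(Δ_ω)`. The function `f` is the microcanonical average of `A`: with
`p(ω)` the part of `δ_0` in the absolutely continuous subspace and `κ = E ⟨p, 1_{(·)}(Δ_ω) p⟩`,
`f dκ` is the measure `E ⟨1_{(·)}(Δ_ω) p, A_ω p⟩`.
-/

set_option autoImplicit false

open MeasureTheory Filter Topology
open scoped BigOperators ENNReal NNReal InnerProductSpace

namespace Pool.Agent.Results.MP_d0f69c_mp.MicrocanonicalACStates

/-- `ℓ²(ℤ^d)` -/
abbrev L2 (d : ℕ) : Type := lp (fun _ : Fin d → ℤ => ℂ) 2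

/-- potentials on `ℤ^d` -/
abbrev Pot (d : ℕ) : Type := (Fin d → ℤ) → ℝ

/-- the operator of the problem, `(Δ_ω u)(j) = -∑_{|n|=1} (u(j+n) - u(j)) + ω_j u(j)` (the unit
vectors `n` are `± e_i`) -/
noncomputable def H {d : ℕ} (ω : Pot d) (u : (Fin d → ℤ) → ℂ) (j : Fin d → ℤ) : ℂ :=
  -(∑ i : Fin d, ((u (j + Pi.single i 1) - u j) + (u (j - Pi.single i 1) - u j))) + (ω j : ℂ) * u j

/-- `U t = e^{-itΔ_ω}`: norm preserving maps of `ℓ²(ℤ^d)` with `U 0 = 1` and `i ∂_t (U_t u) = Δ_ω U_t u`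
at every site -/
structure IsPropagator {d : ℕ} (ω : Pot d) (U : ℝ → L2 d → L2 d) : Prop where
  zero : ∀ u, U 0 u = u
  norm : ∀ t u, ‖U t u‖ = ‖u‖
  schrodinger : ∀ u t j, HasDerivAt (fun s => (U s u) j)
    (-Complex.I * H ω (fun k => (U t u) k) j) t

/-- `⟨A_ω u, w⟩ = ⟨u, A_ω w⟩`; such a map is linear -/
def Symmetric {d : ℕ} (A : Pot d → L2 d → L2 d) : Prop :=
  ∀ (ω : Pot d) (u w : L2 d), ⟪A ω u, w⟫_ℂ = ⟪u, A ω w⟫_ℂ

/-- bounded, uniformly in `ω` -/
def Bounded {d : ℕ} (A : Pot d → L2 d → L2 d) : Prop :=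
  ∃ M : ℝ, ∀ (ω : Pot d) (u : L2 d), ‖A ω u‖ ≤ M * ‖u‖

/-- covariant under translations -/
def Covariant {d : ℕ} (A : Pot d → L2 d → L2 d) : Prop :=
  ∀ (z : Fin d → ℤ) (ω : Pot d) (u w : L2 d), (∀ j, w j = u (j + z)) →
    ∀ j, (A (fun k => ω (k + z)) w) j = (A ω u) (j + z)

/-- a change of the potential at the origin changes `A_ω u` by at most a constant times the values
of `|u|` on a finite set -/
def LocalAtOrigin {d : ℕ} (A : Pot d → L2 d → L2 d) : Prop :=
  ∀ (ω : Pot d) (r : ℝ), ∃ (F : Finset (Fin d → ℤ)) (C : ℝ), ∀ u : L2 d,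
    ‖A (Function.update ω 0 r) u - A ω u‖ ≤ C * ∑ j ∈ F, ‖u j‖

/-- `A_ω` is a local observable: bounded self-adjoint operators, bounded uniformly in `ω`, jointly
continuous in `ω` (product topology) and the vector, covariant under translations, and such that a
change of the potential at the origin changes `A_ω u` by at most a constant times the values of
`|u|` on a finite set. Examples are all bounded self-adjoint translation invariant operators, and
all self-adjoint finite range operators with covariant coefficients which are bounded continuous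
functions of the potential at finitely many sites. -/
structure IsLocalObservable {d : ℕ} (A : Pot d → L2 d → L2 d) : Prop where
  symmetric : Symmetric A
  bounded : Bounded A
  continuous : Continuous fun q : Pot d × L2 d => A q.1 q.2
  covariant : Covariant A
  localAtOrigin : LocalAtOrigin A

/-- `m` is the spectral measure of `u`: the finite measure with
`⟨u, e^{-itΔ_ω} u⟩ = ∫ e^{-itE} dm(E)` -/
def IsSpectral {d : ℕ} (U : ℝ → L2 d → L2 d) (u : L2 d) (m : Measure ℝ) : Prop :=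
  IsFiniteMeasure m ∧
    ∀ t : ℝ, ⟪u, U t u⟫_ℂ = ∫ E : ℝ, Complex.exp (-(Complex.I * t * E)) ∂m

/-- `u` is in the absolutely continuous subspace -/
def IsAC {d : ℕ} (U : ℝ → L2 d → L2 d) (u : L2 d) : Prop :=
  ∃ m : Measure ℝ, IsSpectral U u m ∧ m ≪ volume

/-- `w = f(Δ_ω) u`: with the spectral measure `m` of `u`, `⟨e^{-itΔ_ω} u, w⟩ = ∫ e^{itE} f(E) dm(E)`
for all `t`, and `‖w‖² = ∫ f² dm` -/
def IsFunctionOf {d : ℕ} (U : ℝ → L2 d → L2 d) (f : ℝ → ℝ) (u w : L2 d) : Prop :=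
  ∃ m : Measure ℝ, IsSpectral U u m ∧
    (∀ t : ℝ, ⟪U t u, w⟫_ℂ = ∫ E : ℝ, Complex.exp (Complex.I * t * E) * f E ∂m) ∧
    ‖w‖ ^ 2 = ∫ E, f E ^ 2 ∂m

/-- the law of iid variables with law `μ` on `ℤ^d` -/
noncomputable def iid (d : ℕ) (μ : Measure ℝ) : Measure (Pot d) :=
  Measure.infinitePi fun _ => μ

/-- the time average over `[0,T]` of the observable at time `s`, `U_{-s} A U_s`, applied to `u` -/
noncomputable def average {d : ℕ} (U : ℝ → L2 d → L2 d) (A : L2 d → L2 d) (T : ℝ)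
    (u : L2 d) : L2 d :=
  ((T : ℂ)⁻¹) • ∫ s in (0 : ℝ)..T, U (-s) (A (U s u))

/-- `ψ(ω)` is a measurable choice of a vector of norm at most one which is almost surely in the
absolutely continuous subspace of `Δ_ω` -/
structure ACChoice {d : ℕ} (μ : Measure ℝ) (U : Pot d → ℝ → L2 d → L2 d)
    (ψ : Pot d → L2 d) : Prop where
  meas : AEStronglyMeasurable ψ (iid d μ)
  norm_le : ∀ ω, ‖ψ ω‖ ≤ 1
  ac : ∀ᵐ ω ∂(iid d μ), IsAC (U ω) (ψ ω)

/-- `p` is the orthogonal projection of `u` to the absolutely continuous subspace -/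
def IsACPart {d : ℕ} (U : ℝ → L2 d → L2 d) (u p : L2 d) : Prop :=
  IsAC U p ∧ ∀ w : L2 d, IsAC U w → ⟪u - p, w⟫_ℂ = 0

/-- `p(ω)` is the part of `δ_0` in the absolutely continuous subspace of `Δ_ω`, and the absolutely
continuous finite measure `κ` is the density of states of this subspace, that is,
`E ⟨p, e^{-itΔ_ω} p⟩ = ∫ e^{-itE} dκ(E)` for all `t` -/
structure IsDensity {d : ℕ} (μ : Measure ℝ) (U : Pot d → ℝ → L2 d → L2 d)
    (p : Pot d → L2 d) (κ : Measure ℝ) : Prop where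
  meas : AEStronglyMeasurable p (iid d μ)
  part : ∀ᵐ ω ∂(iid d μ), IsACPart (U ω) (lp.single 2 0 1) (p ω)
  finite : IsFiniteMeasure κ
  ac : κ ≪ volume
  fourier : ∀ t : ℝ, ∫ ω, ⟪p ω, U ω t (p ω)⟫_ℂ ∂(iid d μ) =
    ∫ E : ℝ, Complex.exp (-(Complex.I * t * E)) ∂κ

/-- the bounded Borel function `f` is the microcanonical average of the observable `A`:
`E ⟨e^{-itΔ_ω} p, A_ω p⟩ = ∫ e^{itE} f(E) dκ(E)` for all `t`. This determines `f` up to `κ`-null
sets. -/
structure IsMicrocanonical {d : ℕ} (μ : Measure ℝ) (U : Pot d → ℝ → L2 d → L2 d)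
    (p : Pot d → L2 d) (κ : Measure ℝ) (A : Pot d → L2 d → L2 d)
    (f : ℝ → ℝ) : Prop where
  meas : Measurable f
  bounded : ∃ M : ℝ, ∀ E, |f E| ≤ M
  formula : ∀ t : ℝ, ∫ ω, ⟪U ω t (p ω), A ω (p ω)⟫_ℂ ∂(iid d μ) =
    ∫ E : ℝ, Complex.exp (Complex.I * t * E) * f E ∂κ

/-- the time average over `[0,T]` of the observable applied to `ψ(ω)` tends to `f(Δ_ω) ψ(ω)` in mean
square as `T → ∞` -/
def Equilibrates {d : ℕ} (μ : Measure ℝ) (U : Pot d → ℝ → L2 d → L2 d)
    (A : Pot d → L2 d → L2 d) (f : ℝ → ℝ) (ψ : Pot d → L2 d) : Prop :=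
  ∃ χ : Pot d → L2 d, AEStronglyMeasurable χ (iid d μ) ∧
    (∀ᵐ ω ∂(iid d μ), IsFunctionOf (U ω) f (ψ ω) (χ ω)) ∧
    Tendsto (fun T : ℝ => ∫⁻ ω, ‖average (U ω) (A ω) T (ψ ω) - χ ω‖ₑ ^ 2 ∂(iid d μ))
      atTop (𝓝 0)

open Pool.Agent.H5R2 Pool.Agent.Y662.ERG

theorem sol_of_prop {d : ℕ} {ω : (Fin d → ℤ) → ℝ} {U : ℝ → L2 d → L2 d}
    (hU : IsPropagator ω U) (u : L2 d) :
    NB.IsSol (-1) (fun x => 2 * d + ω x) (fun t => U t u) (fun _ => 0) := by
  refine ⟨fun T => ⟨‖u‖, fun t _ => (hU.norm t u).le⟩, fun t x => ?_⟩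
  have h := hU.schrodinger u t x
  have e := NB.FIN.hop_eq ω (fun k => (U t u) k) x
  have e2 : -Complex.I * (NB.hopf (-1) (fun y => (U t u) y) x +
      (((fun x => 2 * d + ω x) x : ℝ) : ℂ) * (U t u) x) + ((0 : L2 d) : (Fin d → ℤ) → ℂ) x =
      -Complex.I * H ω (fun k => (U t u) k) x := by
    have e3 : H ω (fun k => (U t u) k) x = -(∑ i : Fin d,
        (((U t u) (x + Pi.single i 1) - (U t u) x) + ((U t u) (x - Pi.single i 1) - (U t u) x))) +
        (ω x : ℂ) * (U t u) x := rfl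
    rw [e3, ← e]
    simp
  rw [e2]
  exact h

theorem prop_of_grp {d : ℕ} {ω : (Fin d → ℤ) → ℝ} {W : NB.UG (NB.L2 (NB.Site d))}
    (hW : NB.IsGrp (-1) (fun x => 2 * d + ω x) W) : IsPropagator ω (fun t u => W.U t u) := by
  refine ⟨W.zero', W.norm', fun u t x => ?_⟩
  have h := (hW u).2 t x
  have e := NB.FIN.hop_eq ω (fun k => (W.U t u) k) x
  have e3 : H ω (fun k => (W.U t u) k) x = -(∑ i : Fin d,
        (((W.U t u) (x + Pi.single i 1) - (W.U t u) x) +
          ((W.U t u) (x - Pi.single i 1) - (W.U t u) x))) + (ω x : ℂ) * (W.U t u) x := rfl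
  rw [e3, ← e]
  simpa using h

theorem prop_eq {d : ℕ} {ω : (Fin d → ℤ) → ℝ} {W : NB.UG (NB.L2 (NB.Site d))}
    (hW : NB.IsGrp (-1) (fun x => 2 * d + ω x) W) {U : ℝ → L2 d → L2 d}
    (hU : IsPropagator ω U) (t : ℝ) (u : L2 d) : U t u = W.U t u := by
  have h := NB.ALL.a_UN d (-1) _ W hW (fun t => U t u) (fun _ => 0)
    continuous_const (sol_of_prop hU u) t
  simpa [hU.zero u] using h

theorem lin_of {d : ℕ} {A : L2 d → L2 d} (hs : ∀ u w : L2 d, ⟪A u, w⟫_ℂ = ⟪u, A w⟫_ℂ) :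
    (∀ u w, A (u + w) = A u + A w) ∧ ∀ (c : ℂ) (u), A (c • u) = c • A u := by
  constructor
  · intro u w
    refine ext_inner_right ℂ fun x => ?_
    rw [hs, inner_add_left, inner_add_left, hs, hs]
  · intro c u
    refine ext_inner_right ℂ fun x => ?_
    rw [hs, inner_smul_left, inner_smul_left, hs]

/-- the bounded operator -/
noncomputable def toOp {d : ℕ} (A : L2 d → L2 d)
    (hs : ∀ u w : L2 d, ⟪A u, w⟫_ℂ = ⟪u, A w⟫_ℂ) (hb : ∃ M : ℝ, ∀ u, ‖A u‖ ≤ M * ‖u‖) :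
    L2 d →L[ℂ] L2 d :=
  LinearMap.mkContinuousOfExistsBound
    { toFun := A, map_add' := (lin_of hs).1, map_smul' := (lin_of hs).2 } hb

theorem obs_of {d : ℕ} {A : Pot d → L2 d → L2 d} (hA : IsLocalObservable A) :
    ∃ (v : Pot d → L2 d →L[ℂ] L2 d) (M : ℝ), (∀ ω u, v ω u = A ω u) ∧ Obs d v M := by
  obtain ⟨M, hM⟩ := hA.bounded
  refine ⟨fun ω => toOp (A ω) (hA.symmetric ω) ⟨M, hM ω⟩, M, fun ω u => rfl,
    hA.symmetric, hM, hA.continuous, fun z S hS ω u => ?_, fun ω r => ?_⟩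
  · ext j
    show (A (fun k => ω (k + z)) (S u)) j = (S (A ω u)) j
    rw [hA.covariant z ω u (S u) (fun k => hS u k) j, hS]
  · obtain ⟨F, C, h⟩ := hA.localAtOrigin ω r
    refine ⟨F, C, fun u => ?_⟩
    simp only [NB.STAT.inner_dl]
    exact h u

/-- Let `d ≥ 1` and let `μ` be a law with bounded support which is not a point mass. For every
potential the unitary group exists and is unique. There are the part `p(ω)` of `δ_0` in the
absolutely continuous subspace and its density of states `κ` such that for every local observable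
`A` there is a bounded Borel function `f`, not depending on `ω`, which is the microcanonical average
of `A` and has the following property: for every measurable choice of a vector `ψ(ω)`,
`‖ψ(ω)‖ ≤ 1`, in the absolutely continuous subspace of `Δ_ω`, the time average over `[0,T]` of the
observable applied to `ψ(ω)` tends to `f(Δ_ω) ψ(ω)` in mean square as `T → ∞`. -/
theorem result (d : ℕ) (hd : 1 ≤ d) (μ : Measure ℝ) [IsProbabilityMeasure μ]
    (hb : ∃ K : ℝ, ∀ᵐ r ∂μ, |r| ≤ K) (hμ : ∀ r : ℝ, μ {r} ≠ 1) :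
    (∀ ω : Pot d, ∃! U : ℝ → L2 d → L2 d, IsPropagator ω U) ∧
    ∀ U : Pot d → ℝ → L2 d → L2 d, (∀ ω, IsPropagator ω (U ω)) →
      ∃ (p : Pot d → L2 d) (κ : Measure ℝ), IsDensity μ U p κ ∧
        ∀ A : Pot d → L2 d → L2 d, IsLocalObservable A →
          ∃ f : ℝ → ℝ, IsMicrocanonical μ U p κ A f ∧
            ∀ ψ : Pot d → L2 d, ACChoice μ U ψ → Equilibrates μ U A f ψ := by
  obtain ⟨K, hK⟩ := hb
  refine ⟨fun ω => ?_, fun U hU => ?_⟩
  · obtain ⟨W, hW⟩ := NB.ALL.a_EX d (-1) (fun x => 2 * d + ω x)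
    refine ⟨fun t u => W.U t u, prop_of_grp hW, fun U hU => ?_⟩
    funext t u
    exact prop_eq hW hU t u
  · choose ev hev using fun ω : NB.Site d → ℝ => NB.ALL.a_EX d (-1) (fun x => 2 * d + ω x)
    have hUe : ∀ ω t u, U ω t u = (ev ω).U t u := fun ω t u => prop_eq (hev ω) (hU ω) t u
    obtain ⟨κ, hκ1, hκ2, hκ3, hmain⟩ := main_mic hd hK hμ hev
    have hbd := bd_ae (d := d) hK
    have hac_iff : ∀ ω : (Fin d → ℤ) → ℝ, (∀ x, |ω x| ≤ K) → ∀ u : L2 d,
        IsAC (U ω) u ↔ Pool.Agent.TH980.IM.spm (Pool.Agent.TH980.IM.HV_sa K ω) u ≪ volume := by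
      intro ω h1 u
      have hUx : ∀ t u, U ω t u = Ex (Pool.Agent.TH980.IM.HV K ω) t u := fun t u => by
        rw [hUe, grp_Ex h1 (hev ω)]
      constructor
      · rintro ⟨m, ⟨hm1, hm2⟩, hm3⟩
        have hmm : m = Pool.Agent.TH980.IM.spm (Pool.Agent.TH980.IM.HV_sa K ω) u :=
          spm_unique _ u m fun t => by rw [← hUx, hm2 t]
        rw [← hmm]
        exact hm3
      · intro h
        refine ⟨_, ⟨inferInstance, fun t => ?_⟩, h⟩
        rw [hUx, Ex_spm]
    refine ⟨fun ω => PA K ω (NB.dl 0), κ, ⟨?_, ?_, hκ1, hκ2, fun t => ?_⟩, fun A hA => ?_⟩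
    · exact PA_aesm K μ aestronglyMeasurable_const
    · have hbd' : ∀ᵐ ω ∂(iid d μ), ∀ x, |ω x| ≤ K := hbd
      filter_upwards [hbd'] with ω h1
      refine ⟨(hac_iff ω h1 _).2 (acP_ac _ _), fun w hw => ?_⟩
      exact acP_orth _ ((hac_iff ω h1 w).1 hw) _
    · simp only [hUe]
      exact hκ3 t
    obtain ⟨v, M, hvA, hO⟩ := obs_of hA
    obtain ⟨f, Bop, hf1, hf2, hlim, hB, hmic⟩ := hmain v M hO
    refine ⟨f, ⟨hf1, ⟨M, hf2⟩, fun t => ?_⟩, fun ψ ⟨hψ, hψ1, hac⟩ => ?_⟩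
    · simp only [hUe, ← hvA]
      exact hmic t
    refine ⟨fun ω => Bop ω (ψ ω), (fin_int hev hO hlim ψ 1 hψ hψ1).1, ?_, ?_⟩
    · have hB' : ∀ᵐ ω ∂(iid d μ), (∀ x, |ω x| ≤ K) ∧
          (∀ x, Bop ω (Pool.Agent.TH980.IM.HV K ω x) =
            Pool.Agent.TH980.IM.HV K ω (Bop ω x)) ∧
          ∀ ψ, ∀ᵐ E : ℝ, Ngl (Pool.Agent.TH980.IM.HV K ω) E (Bop ω ψ - ((f E : ℝ) : ℂ) • ψ) := hB
      filter_upwards [hac, hB'] with ω ⟨m, ⟨hm1, hm2⟩, hm3⟩ ⟨h1, h2, h3⟩
      have hsa := Pool.Agent.TH980.IM.HV_sa K ω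
      have hUx : ∀ t u, U ω t u = Ex (Pool.Agent.TH980.IM.HV K ω) t u := fun t u => by
        rw [hUe, grp_Ex h1 (hev ω)]
      have hmm : m = Pool.Agent.TH980.IM.spm hsa (ψ ω) :=
        spm_unique hsa (ψ ω) m fun t => by rw [← hUx, hm2 t]
      have hac' : Pool.Agent.TH980.IM.spm hsa (ψ ω) ≪ volume := hmm ▸ hm3
      refine ⟨m, ⟨hm1, hm2⟩, fun t => ?_, ?_⟩
      · rw [hUx, inner_of_ngl hsa h2 hf1 hf2 h3 hac' t, ← hmm]
      · have h4 := norm_of_ngl hsa h2 (c := fun E => ((f E : ℝ) : ℂ))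
          (Complex.measurable_ofReal.comp hf1) hac' (h3 (ψ ω))
        rw [← hmm] at h4
        have h5 : ∫⁻ E, ‖((f E : ℝ) : ℂ)‖ₑ ^ 2 ∂m = ENNReal.ofReal (∫ E, f E ^ 2 ∂m) := by
          rw [ofReal_integral_eq_lintegral_ofReal]
          · refine lintegral_congr fun E => ?_
            rw [← ofReal_norm, Complex.norm_real, ← ENNReal.ofReal_pow (norm_nonneg _),
              Real.norm_eq_abs, sq_abs]
          · refine Integrable.of_bound (hf1.pow_const 2).aestronglyMeasurable (M ^ 2)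
              (ae_of_all _ fun E => ?_)
            rw [norm_pow, Real.norm_eq_abs]
            exact pow_le_pow_left₀ (abs_nonneg _) (hf2 E) 2
          · exact ae_of_all _ fun E => sq_nonneg _
        have h6 : ‖Bop ω (ψ ω)‖ₑ ^ 2 = ENNReal.ofReal (‖Bop ω (ψ ω)‖ ^ 2) := by
          rw [← ofReal_norm, ENNReal.ofReal_pow (norm_nonneg _)]
        rw [h6, h5] at h4
        exact (ENNReal.ofReal_eq_ofReal_iff (by positivity)
          (integral_nonneg fun E => sq_nonneg _)).1 h4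
    · have key := fin_real hev hO hlim ψ 1 hψ hψ1
      refine key.congr fun T => ?_
      refine lintegral_congr fun ω => ?_
      unfold average
      simp only [hUe, ← hvA]

end Pool.Agent.Results.MP_d0f69c_mp.MicrocanonicalACStates
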