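import Pool.Agent.Y663.W5.All

/-!
# Bernoulli potentials of unit strength with purely absolutely continuous spectrum

For all `δ > 0`, `R > 0`, `1 < p < 2` and `ε > 0` there is a continuous function `b` whose `L^p` norm
with respect to the density of states of `-Δ` is small, with small and decaying hopping amplitudes of
`b(-Δ)`, such that for all coins with both probabilities at least `δ` (the fair coin included) the
operator `-Δ + b(-Δ) + ω` on `ℓ²(ℤ^d)`, `ω_j = ±1` independent, has almost surely purely absolutely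
continuous spectrum in `(-R, R)`, and the spectrum fills this interval.
-/

set_option autoImplicit false

open MeasureTheory

namespace Pool.Agent.Results.MP_d0f69c_mp.UnitStrengthAC

variable {d : ℕ}

/-- The symbol `∑ i (2 - 2 cos (2 π k_i))` of `-Δ`. -/
noncomputable def symb (k : UnitAddTorus (Fin d)) : ℝ := ∑ i, (2 - 2 * (fourier 1 (k i) : ℂ).re)

/-- The hopping amplitudes of `b(-Δ)`: the Fourier coefficients of `b (symb k)`. -/
noncomputable def amp (b : ℝ → ℝ) (x : Fin d → ℤ) : ℂ :=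
  UnitAddTorus.mFourierCoeff (fun k : UnitAddTorus (Fin d) => (b (symb k) : ℂ)) x

/-- `(-Δ u)(j) = -∑_{|n| = 1} (u(j + n) - u(j))` -/
noncomputable def negLap (u : (Fin d → ℤ) → ℂ) (j : Fin d → ℤ) : ℂ :=
  -∑ i : Fin d, ((u (j + Pi.single i 1) - u j) + (u (j - Pi.single i 1) - u j))

/-- The operator `-Δ + b(-Δ) + ω` with the potential `±1` given by the coins `ω`. -/
noncomputable def H (b : ℝ → ℝ) (ω : (Fin d → ℤ) → Bool) (u : (Fin d → ℤ) → ℂ) (j : Fin d → ℤ) :
    ℂ :=
  negLap u j + ∑' y, amp b (j - y) * u y + (if ω j then (1 : ℂ) else -1) * u j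

/-- square summable functions -/
def SqSummable (u : (Fin d → ℤ) → ℂ) : Prop := Summable fun x => ‖u x‖ ^ 2

/-- `m` is the spectral measure of the vector `f`: a finite measure whose Borel transform
`∫ (E - z)⁻¹ dm(E)` is `⟨f, (A - z)⁻¹ f⟩` for all non-real `z`. -/
def IsSpectralMeasure (A : ((Fin d → ℤ) → ℂ) → (Fin d → ℤ) → ℂ) (f : (Fin d → ℤ) → ℂ)
    (m : Measure ℝ) : Prop :=
  IsFiniteMeasure m ∧ ∀ z : ℂ, z.im ≠ 0 → ∃ u : (Fin d → ℤ) → ℂ, SqSummable u ∧
    (∀ x, A u x - z * u x = f x) ∧ ∫ E : ℝ, ((E : ℂ) - z)⁻¹ ∂m = ∑' x, (starRingEnd ℂ) (f x) * u x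

open Classical in
/-- the unit vector at `x` -/
noncomputable def unit (x y : Fin d → ℤ) : ℂ := if y = x then 1 else 0

/-- The spectrum of `A` in the open interval `(a₁, a₂)` is purely absolutely continuous and fills
this interval: every vector of `ℓ²` has a spectral measure, all spectral measures vanish on the
Lebesgue null subsets of `(a₁, a₂)`, and the Lebesgue measure vanishes on each measurable subset of
`(a₁, a₂)` on which the spectral measure of some unit vector vanishes. -/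
def PurelyACOn (A : ((Fin d → ℤ) → ℂ) → (Fin d → ℤ) → ℂ) (a₁ a₂ : ℝ) : Prop :=
  (∀ f, SqSummable f → ∃ m, IsSpectralMeasure A f m) ∧
  (∀ f m, SqSummable f → IsSpectralMeasure A f m →
    ∀ S : Set ℝ, S ⊆ Set.Ioo a₁ a₂ → volume S = 0 → m S = 0) ∧
  ∀ x m, IsSpectralMeasure A (unit x) m →
    ∀ S : Set ℝ, S ⊆ Set.Ioo a₁ a₂ → MeasurableSet S → m S = 0 → volume S = 0

theorem rep (g : C(ℝ, ℝ)) (ω : (Fin d → ℤ) → Bool) :
    Y663.WA.Rep (H g ω) (W792.LL.lap d + W792.WA.gK g d) 1 (fun x => Y663.WA.sg (ω x)) := by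
  intro u hu x
  have h2 : (((1 : ℝ) * Y663.WA.sg (ω x) : ℝ) : ℂ) = if ω x then (1 : ℂ) else -1 := by
    unfold Y663.WA.sg
    split_ifs <;> simp
  rw [Y663.WA.hop_add _ _ u hu x, Y663.WA.hop_lap, h2]
  have h3 : negLap u x =
      ∑ i : Fin d, (2 * u x - u (x + Pi.single i 1) - u (x - Pi.single i 1)) := by
    unfold negLap
    rw [← Finset.sum_neg_distrib]
    exact Finset.sum_congr rfl fun i _ => by ring
  unfold H
  rw [h3]
  rfl

/-- **Theorem.** For `d ≥ 1`, `δ > 0`, `R > 0`, `1 < p < 2`, `ε > 0` there is a continuous function `b`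
with `∫ |b (symb k)| ^ p dk ≤ ε` and hopping amplitudes of `b(-Δ)` at most `ε` and at most
`C / (1 + |x|) ^ (d / 3)` such that for all laws `β` of a coin with both probabilities at least `δ`,
almost surely for independent coins, the spectrum of `-Δ + b(-Δ) + ω`, `ω_j = ±1`, in `(-R, R)` is
purely absolutely continuous, and it fills this interval. -/
theorem result (d : ℕ) (hd : 0 < d) (δ R p ε : ℝ) (hδ : 0 < δ) (hR : 0 < R)
    (hp₁ : 1 < p) (hp₂ : p < 2) (hε : 0 < ε) :
    ∃ b : ℝ → ℝ, Continuous b ∧ (∫ k : UnitAddTorus (Fin d), |b (symb k)| ^ p) ≤ ε ∧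
      (∀ x : Fin d → ℤ, ‖amp b x‖ ≤ ε) ∧
      (∃ C : ℝ, ∀ x : Fin d → ℤ, ‖amp b x‖ ≤ C / (1 + ‖x‖) ^ ((d : ℝ) / 3)) ∧
      ∀ (β : Measure Bool) [IsProbabilityMeasure β], δ ≤ β.real {true} → δ ≤ β.real {false} →
        ∀ᵐ ω ∂(Measure.infinitePi fun _ : Fin d → ℤ => β), PurelyACOn (H b ω) (-R) R := by
  obtain ⟨g, -, hI, hA, hC, h⟩ := Y663.W5.coin_ac d hd δ R p ε hδ hR hp₁ hp₂ hε
  refine ⟨g, g.continuous, hI, hA, hC, fun β _ h1 h2 => ?_⟩
  filter_upwards [h β h1 h2] with ω hω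
  refine Y663.WA.fn_main (B := 1) (rep g ω) (fun x => ?_) hω
  unfold Y663.WA.sg
  split_ifs <;> norm_num

end Pool.Agent.Results.MP_d0f69c_mp.UnitStrengthAC
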